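import Mathlib

/-!
# Chebyshev type polynomials and products in separated variables (helper177)
-/

set_option autoImplicit false

namespace Pool.Agent.X177.TP

open Polynomial

/-- `t n = U_(n-1)`: `A ^ n = t n (tr A) A - t (n - 1) (tr A)` -/
noncomputable def t : ℕ → ℤ[X]
  | 0 => 0
  | 1 => 1
  | (n + 2) => X * t (n + 1) - t n

theorem t_zero : t 0 = 0 := rfl
theorem t_one : t 1 = 1 := rfl
theorem t_succ (n : ℕ) : t (n + 2) = X * t (n + 1) - t n := rfl

theorem t_parity : ∀ n k : ℕ, Odd (n + k) → (t (n + 1)).coeff k = 0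
  | 0, k, h => by
    rw [t_one, coeff_one]
    split_ifs with h0
    · subst h0; simp at h
    · rfl
  | 1, k, h => by
    have : t (1 + 1) = X := by
      show t (0 + 2) = X
      rw [t_succ, t_one, t_zero]; simp
    rw [this, coeff_X]
    split_ifs with h0
    · subst h0; exact absurd h (by decide)
    · rfl
  | (n + 2), k, h => by
    show (t (n + 1 + 2)).coeff k = 0
    rw [t_succ, coeff_sub]
    rcases k with _ | k
    · rw [coeff_X_mul_zero, t_parity n 0 (by
        obtain ⟨r, hr⟩ := h
        exact ⟨r - 1, by omega⟩), sub_zero]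
    · rw [coeff_X_mul, t_parity (n + 1) k (by
        obtain ⟨r, hr⟩ := h
        exact ⟨r - 1, by omega⟩), t_parity n (k + 1) (by
        obtain ⟨r, hr⟩ := h
        exact ⟨r - 1, by omega⟩), sub_zero]

theorem t_big : ∀ n k : ℕ, n < k → (t (n + 1)).coeff k = 0
  | 0, k, h => by
    rw [t_one, coeff_one, if_neg (by omega)]
  | 1, k, h => by
    have : t (1 + 1) = X := by
      show t (0 + 2) = X
      rw [t_succ, t_one, t_zero]; simp
    rw [this, coeff_X, if_neg (by omega)]
  | (n + 2), k, h => by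
    show (t (n + 1 + 2)).coeff k = 0
    rw [t_succ, coeff_sub]
    rcases k with _ | k
    · omega
    · rw [coeff_X_mul, t_big (n + 1) k (by omega), t_big n (k + 1) (by omega), sub_zero]

theorem t_coeff : ∀ n a k : ℕ, k + 2 * a = n →
    (t (n + 1)).coeff k = (-1) ^ a * ((n - a).choose a : ℤ)
  | 0, a, k, h => by
    obtain rfl : a = 0 := by omega
    obtain rfl : k = 0 := by omega
    rw [t_one]; simp
  | 1, a, k, h => by
    obtain rfl : a = 0 := by omega
    obtain rfl : k = 1 := by omega
    have : t (1 + 1) = X := by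
      show t (0 + 2) = X
      rw [t_succ, t_one, t_zero]; simp
    rw [this]; simp
  | (n + 2), a, k, h => by
    show (t (n + 1 + 2)).coeff k = _
    rw [t_succ, coeff_sub]
    rcases a with _ | a
    · obtain rfl : k = n + 2 := by omega
      rw [show n + 2 = (n + 1) + 1 from rfl, coeff_X_mul, t_coeff (n + 1) 0 (n + 1) (by omega),
        t_big n (n + 1 + 1) (by omega)]
      simp
    · have hk : k + 2 * a = n := by omega
      rw [t_coeff n a k hk]
      rcases k with _ | k
      · rw [coeff_X_mul_zero]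
        have h1 : n = 2 * a := by omega
        subst h1
        rw [show 2 * a - a = a by omega, show 2 * a + 2 - (a + 1) = a + 1 by omega,
          Nat.choose_self, Nat.choose_self]
        ring
      · rw [coeff_X_mul, t_coeff (n + 1) (a + 1) k (by omega)]
        rw [show n + 1 - (a + 1) = n - a by omega, show n + 2 - (a + 1) = (n - a) + 1 by omega,
          Nat.choose_succ_succ]
        push_cast
        ring

theorem Xt_coeff (n a k : ℕ) (hn : 1 ≤ n) (h : k + 2 * a = n) :
    (X * t n).coeff k = (-1) ^ a * ((n - 1 - a).choose a : ℤ) := by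
  obtain ⟨m, rfl⟩ : ∃ m, n = m + 1 := ⟨n - 1, by omega⟩
  rcases k with _ | k
  · rw [coeff_X_mul_zero, Nat.choose_eq_zero_of_lt (by omega)]
    simp
  · rw [coeff_X_mul, t_coeff m a k (by omega)]
    simp

theorem Xt_parity (n k : ℕ) (h : Odd (n + k)) : (X * t (n)).coeff k = 0 := by
  rcases k with _ | k
  · rw [coeff_X_mul_zero]
  · rw [coeff_X_mul]
    rcases n with _ | n
    · rw [t_zero, coeff_zero]
    · apply t_parity
      obtain ⟨r, hr⟩ := h
      exact ⟨r - 1, by omega⟩

theorem t_parity' (n k : ℕ) (h : Even (n + k)) : (t n).coeff k = 0 := by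
  rcases n with _ | n
  · rw [t_zero, coeff_zero]
  · apply t_parity
    obtain ⟨r, hr⟩ := h
    exact ⟨r - 1, by omega⟩

/-- product of three polynomials in separate variables -/
noncomputable def T3 (u v w : ℤ[X]) : MvPolynomial (Fin 3) ℤ :=
  Polynomial.aeval (MvPolynomial.X 0) u * Polynomial.aeval (MvPolynomial.X 1) v *
    Polynomial.aeval (MvPolynomial.X 2) w

theorem T3_coeff (u v w : ℤ[X]) (m : Fin 3 →₀ ℕ) :
    (T3 u v w).coeff m = u.coeff (m 0) * v.coeff (m 1) * w.coeff (m 2) := by
  unfold T3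
  induction u using Polynomial.induction_on' with
  | add p q hp hq =>
    rw [map_add, add_mul, add_mul, MvPolynomial.coeff_add, hp, hq, Polynomial.coeff_add]
    ring
  | monomial i a =>
    induction v using Polynomial.induction_on' with
    | add p q hp hq =>
      rw [map_add, mul_add, add_mul, MvPolynomial.coeff_add, hp, hq, Polynomial.coeff_add]
      ring
    | monomial j b =>
      induction w using Polynomial.induction_on' with
      | add p q hp hq =>
        rw [map_add, mul_add, MvPolynomial.coeff_add, hp, hq, Polynomial.coeff_add]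
        ring
      | monomial k c =>
        simp only [Polynomial.aeval_monomial, Polynomial.coeff_monomial]
        have : (algebraMap ℤ (MvPolynomial (Fin 3) ℤ)) a * MvPolynomial.X 0 ^ i *
            ((algebraMap ℤ (MvPolynomial (Fin 3) ℤ)) b * MvPolynomial.X 1 ^ j) *
            ((algebraMap ℤ (MvPolynomial (Fin 3) ℤ)) c * MvPolynomial.X 2 ^ k) =
            MvPolynomial.monomial (Finsupp.single 0 i + Finsupp.single 1 j + Finsupp.single 2 k)
              (a * b * c) := by
          simp only [MvPolynomial.algebraMap_eq, MvPolynomial.X_pow_eq_monomial,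
            MvPolynomial.C_mul_monomial, MvPolynomial.monomial_mul]
          congr 1
          ring
        rw [this, MvPolynomial.coeff_monomial]
        by_cases h : Finsupp.single 0 i + Finsupp.single 1 j + Finsupp.single 2 k = m
        · rw [if_pos h]
          subst h
          simp
        · rw [if_neg h]
          by_cases h0 : i = m 0
          · by_cases h1 : j = m 1
            · by_cases h2 : k = m 2
              · exfalso
                apply h
                ext l
                fin_cases l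
                · simpa using h0
                · simpa using h1
                · simpa using h2
              · rw [if_neg h2, mul_zero]
            · rw [if_neg h1]; ring
          · rw [if_neg h0]; ring

/-- the trace polynomial of `a^(P+1) b^(Q+1) (ab)^(R+1)` -/
noncomputable def FF (P Q R : ℕ) : MvPolynomial (Fin 3) ℤ :=
  T3 (t (P + 1)) (t (Q + 1)) (X * t (R + 2) - 2 * t (R + 1)) +
  T3 (t (P + 1)) (X * t Q) (t (R + 1)) + T3 (X * t P) (t (Q + 1)) (t (R + 1)) -
  T3 (X * t (P + 1)) (t Q) (X * t (R + 1)) + T3 (X * t (P + 1)) (t Q) (t R) -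
  T3 (t P) (X * t (Q + 1)) (X * t (R + 1)) + T3 (t P) (X * t (Q + 1)) (t R) +
  T3 (t P) (t Q) (X * t (R + 1)) - 2 * T3 (t P) (t Q) (t R)

theorem coeff_two_mul (p : MvPolynomial (Fin 3) ℤ) (m : Fin 3 →₀ ℕ) :
    (2 * p).coeff m = 2 * p.coeff m := by
  rw [two_mul, MvPolynomial.coeff_add]; ring

theorem FF_coeff (P Q R a b s : ℕ) (hP : 1 ≤ P) (hQ : 1 ≤ Q) (ha : 2 * a ≤ P) (hb : 2 * b ≤ Q)
    (hs : 2 * s + 1 ≤ R) (m : Fin 3 →₀ ℕ) (h0 : m 0 = P - 2 * a) (h1 : m 1 = Q - 2 * b)
    (h2 : m 2 = R - 2 * s) : (FF P Q R).coeff m ≠ 0 := by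
  unfold FF
  simp only [MvPolynomial.coeff_add, MvPolynomial.coeff_sub, coeff_two_mul, T3_coeff]
  have e0 : m 0 + 2 * a = P := by omega
  have e1 : m 1 + 2 * b = Q := by omega
  have e2 : m 2 + 2 * s = R := by omega
  rw [t_parity' P (m 0) ⟨P - a, by omega⟩, Xt_parity (P + 1) (m 0) ⟨P - a, by omega⟩]
  rw [t_coeff P a (m 0) e0, t_coeff Q b (m 1) e1, Xt_coeff P a (m 0) hP e0,
    Xt_coeff Q b (m 1) hQ e1, t_coeff R s (m 2) e2]
  have e3 : (X * t (R + 2) - 2 * t (R + 1)).coeff (m 2) =
      - ((-1) ^ s * (((R - s).choose (s + 1) : ℤ) + 2 * ((R - s).choose s : ℤ))) := by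
    rw [coeff_sub, Xt_coeff (R + 2) (s + 1) (m 2) (by omega) (by omega),
      show (2 : ℤ[X]) * t (R + 1) = t (R + 1) + t (R + 1) by ring, coeff_add, t_coeff R s (m 2) e2,
      show R + 2 - 1 - (s + 1) = R - s by omega]
    ring
  rw [e3]
  have hA : (0 : ℤ) < ((P - a).choose a : ℤ) := by exact_mod_cast Nat.choose_pos (by omega)
  have hB : (0 : ℤ) < ((Q - b).choose b : ℤ) := by exact_mod_cast Nat.choose_pos (by omega)
  have hC : (0 : ℤ) < ((R - s).choose s : ℤ) := by exact_mod_cast Nat.choose_pos (by omega)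
  have hD : (0 : ℤ) < ((R - s).choose (s + 1) : ℤ) := by exact_mod_cast Nat.choose_pos (by omega)
  have hA1 : ((P - 1 - a).choose a : ℤ) ≤ ((P - a).choose a : ℤ) := by
    exact_mod_cast Nat.choose_le_choose a (by omega)
  have hB1 : ((Q - 1 - b).choose b : ℤ) ≤ ((Q - b).choose b : ℤ) := by
    exact_mod_cast Nat.choose_le_choose b (by omega)
  set α : ℤ := ((P - a).choose a : ℤ)
  set β : ℤ := ((Q - b).choose b : ℤ)
  set γ : ℤ := ((R - s).choose s : ℤ)
  set δ : ℤ := ((R - s).choose (s + 1) : ℤ)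
  set α1 : ℤ := ((P - 1 - a).choose a : ℤ)
  set β1 : ℤ := ((Q - 1 - b).choose b : ℤ)
  have key : 0 < α * β * (δ + 2 * γ) - α * β1 * γ - α1 * β * γ := by
    have h3 : 0 ≤ α * (β - β1) * γ := by
      have := sub_nonneg.2 hB1
      positivity
    have h4 : 0 ≤ (α - α1) * β * γ := by
      have := sub_nonneg.2 hA1
      positivity
    have h5 : 0 < α * β * δ := by positivity
    nlinarith
  have hne : ((-1 : ℤ) ^ a * (-1) ^ b * (-1) ^ s) ≠ 0 := by
    simp
  intro hcon
  apply hne
  have : ((-1 : ℤ) ^ a * (-1) ^ b * (-1) ^ s) *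
      (α * β * (δ + 2 * γ) - α * β1 * γ - α1 * β * γ) = 0 := by
    linear_combination -hcon
  rcases mul_eq_zero.1 this with h | h
  · exact h
  · exact absurd h key.ne'

/-- lower bound for the number of monomials -/
theorem FF_card (P Q R : ℕ) (hP : 1 ≤ P) (hQ : 1 ≤ Q) :
    (P / 2 + 1) * (Q / 2 + 1) * ((R + 1) / 2) ≤ (FF P Q R).support.card := by
  classical
  let φ : ℕ × ℕ × ℕ → (Fin 3 →₀ ℕ) := fun x =>
    Finsupp.single 0 (P - 2 * x.1) + Finsupp.single 1 (Q - 2 * x.2.1) +
      Finsupp.single 2 (R - 2 * x.2.2)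
  have hφ : ∀ x, φ x 0 = P - 2 * x.1 ∧ φ x 1 = Q - 2 * x.2.1 ∧ φ x 2 = R - 2 * x.2.2 := by
    intro x
    simp [φ]
  have := Finset.card_le_card_of_injOn (s := Finset.range (P / 2 + 1) ×ˢ
    (Finset.range (Q / 2 + 1) ×ˢ Finset.range ((R + 1) / 2))) (t := (FF P Q R).support) φ ?_ ?_
  · simpa [mul_assoc] using this
  · rintro ⟨a, b, s⟩ hx
    simp only [Finset.coe_product, Set.mem_prod, Finset.mem_coe, Finset.mem_range] at hx
    obtain ⟨h1, h2, h3⟩ := hx
    simp only [Finset.mem_coe, MvPolynomial.mem_support_iff]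
    obtain ⟨e0, e1, e2⟩ := hφ (a, b, s)
    exact FF_coeff P Q R a b s hP hQ (by omega) (by omega) (by omega) _ e0 e1 e2
  · rintro ⟨a, b, s⟩ hx ⟨a', b', s'⟩ hx' he
    simp only [Finset.coe_product, Set.mem_prod, Finset.mem_coe, Finset.mem_range] at hx hx'
    obtain ⟨h1, h2, h3⟩ := hx
    obtain ⟨h1', h2', h3'⟩ := hx'
    obtain ⟨e0, e1, e2⟩ := hφ (a, b, s)
    obtain ⟨e0', e1', e2'⟩ := hφ (a', b', s')
    rw [he] at e0 e1 e2
    simp only at e0 e1 e2 e0' e1' e2'
    have i1 : a = a' := by omega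
    have i2 : b = b' := by omega
    have i3 : s = s' := by omega
    rw [i1, i2, i3]

end Pool.Agent.X177.TP
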