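import Pool.Agent.X177.TP.Cheb

/-!
# Trace polynomials of words in `SL(2, ℂ)` (helper177)
-/

set_option autoImplicit false

namespace Pool.Agent.X177.TP

open Matrix

/-- the point `(tr A, tr B, tr AB)` -/
noncomputable def tpt (A B : Matrix (Fin 2) (Fin 2) ℂ) : Fin 3 → ℂ :=
  ![trace A, trace B, trace (A * B)]

theorem sq_formula (A : Matrix (Fin 2) (Fin 2) ℂ) (h : A.det = 1) :
    A * A = trace A • A - 1 := by
  rw [det_fin_two] at h
  ext i j
  fin_cases i <;> fin_cases j <;>
    simp [Matrix.mul_apply, Fin.sum_univ_two, trace_fin_two] <;>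
    first | linear_combination -h | linear_combination h | ring

theorem pow_formula (A : Matrix (Fin 2) (Fin 2) ℂ) (h : A.det = 1) (n : ℕ) :
    A ^ (n + 1) = Polynomial.aeval (trace A) (t (n + 1)) • A -
      Polynomial.aeval (trace A) (t n) • (1 : Matrix (Fin 2) (Fin 2) ℂ) := by
  induction n with
  | zero => simp [t_zero, t_one]
  | succ n ih =>
    rw [pow_succ, ih, sub_mul, smul_mul_assoc, smul_mul_assoc, one_mul, sq_formula A h, t_succ,
      map_sub, map_mul, Polynomial.aeval_X, smul_sub, smul_smul, sub_smul]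
    rw [mul_comm (Polynomial.aeval (trace A) (t (n + 1))) (trace A)]
    abel

theorem aeval_T3 (g : Fin 3 → ℂ) (u v w : Polynomial ℤ) :
    MvPolynomial.aeval g (T3 u v w) = Polynomial.aeval (g 0) u * Polynomial.aeval (g 1) v *
      Polynomial.aeval (g 2) w := by
  unfold T3
  rw [map_mul, map_mul, ← Polynomial.aeval_algHom_apply, ← Polynomial.aeval_algHom_apply,
    ← Polynomial.aeval_algHom_apply, MvPolynomial.aeval_X, MvPolynomial.aeval_X,
    MvPolynomial.aeval_X]

theorem tr1 (A B : Matrix (Fin 2) (Fin 2) ℂ) (hA : A.det = 1) (hB : B.det = 1) :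
    trace (A * B * (A * B)) = trace (A * B) ^ 2 - 2 := by
  have h : (A * B).det = 1 := by rw [det_mul, hA, hB, one_mul]
  rw [sq_formula _ h, trace_sub, trace_smul, smul_eq_mul, trace_one, Fintype.card_fin]
  push_cast
  ring

theorem tr2 (A B : Matrix (Fin 2) (Fin 2) ℂ) (hA : A.det = 1) :
    trace (A * (A * B)) = trace A * trace (A * B) - trace B := by
  rw [← mul_assoc, sq_formula _ hA, sub_mul, smul_mul_assoc, one_mul, trace_sub, trace_smul,
    smul_eq_mul]

theorem tr3 (A B : Matrix (Fin 2) (Fin 2) ℂ) (hB : B.det = 1) :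
    trace (B * (A * B)) = trace B * trace (A * B) - trace A := by
  rw [trace_mul_comm, mul_assoc, sq_formula _ hB, mul_sub, mul_smul_comm, mul_one, trace_sub,
    trace_smul, smul_eq_mul]

theorem trace_word (A B : Matrix (Fin 2) (Fin 2) ℂ) (hA : A.det = 1) (hB : B.det = 1)
    (P Q R : ℕ) :
    trace (A ^ (P + 1) * B ^ (Q + 1) * (A * B) ^ (R + 1)) =
      MvPolynomial.aeval (tpt A B) (FF P Q R) := by
  have hC : (A * B).det = 1 := by rw [det_mul, hA, hB, one_mul]
  rw [pow_formula A hA, pow_formula B hB, pow_formula (A * B) hC]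
  have e1 := tr1 A B hA hB
  have e2 := tr2 A B hA
  have e3 := tr3 A B hB
  unfold FF
  simp only [map_add, map_sub, map_mul, map_ofNat, aeval_T3, Polynomial.aeval_X, t_succ, tpt,
    Matrix.cons_val_zero, Matrix.cons_val_one, Matrix.cons_val]
  generalize Polynomial.aeval (trace A) (t (P + 1)) = α
  generalize Polynomial.aeval (trace A) (t P) = β
  generalize Polynomial.aeval (trace B) (t (Q + 1)) = γ
  generalize Polynomial.aeval (trace B) (t Q) = δ
  generalize Polynomial.aeval (trace (A * B)) (t (R + 1)) = ε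
  generalize Polynomial.aeval (trace (A * B)) (t R) = ζ
  have hexp : (α • A - β • (1 : Matrix (Fin 2) (Fin 2) ℂ)) * (γ • B - δ • 1) *
      (ε • (A * B) - ζ • 1) =
      (α * γ * ε) • (A * B * (A * B)) - (α * γ * ζ) • (A * B) - (α * δ * ε) • (A * (A * B)) +
      (α * δ * ζ) • A - (β * γ * ε) • (B * (A * B)) + (β * γ * ζ) • B + (β * δ * ε) • (A * B) -
      (β * δ * ζ) • 1 := by
    simp only [sub_mul, mul_sub, smul_mul_assoc, mul_smul_comm, smul_smul, mul_one, one_mul,
      smul_sub]
    have c1 : ε * (γ * α) = α * γ * ε := by ring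
    have c2 : ζ * (γ * α) = α * γ * ζ := by ring
    module
  rw [hexp]
  simp only [trace_add, trace_sub, trace_smul, smul_eq_mul, e1, e2, e3, trace_one,
    Fintype.card_fin]
  push_cast
  ring

end Pool.Agent.X177.TP
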