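import Pool.Agent.X177.TP.Trace

/-!
# The Fricke-Vogt theorem with a degree bound (helper177)
-/

set_option autoImplicit false

namespace Pool.Agent.X177.TP

open Matrix

/-- polynomials in three variables -/
abbrev R3 := MvPolynomial (Fin 3) ℤ

/-- coefficients with respect to `1, A, B, AB` -/
structure Quad where
  /-- coefficient of `1` -/
  c0 : R3
  /-- coefficient of `A` -/
  c1 : R3
  /-- coefficient of `B` -/
  c2 : R3
  /-- coefficient of `AB` -/
  c3 : R3

open MvPolynomial

/-- left multiplication by `A` -/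
noncomputable def mulA (q : Quad) : Quad :=
  ⟨-q.c1, q.c0 + X 0 * q.c1, -q.c3, q.c2 + X 0 * q.c3⟩

/-- left multiplication by `B` -/
noncomputable def mulB (q : Quad) : Quad :=
  ⟨(X 2 - X 0 * X 1) * q.c1 - q.c2 - X 0 * q.c3, X 1 * q.c1 + q.c3,
    q.c0 + X 0 * q.c1 + X 1 * q.c2 + X 2 * q.c3, -q.c1⟩

/-- `r q - q'` -/
noncomputable def lin (r : R3) (q q' : Quad) : Quad :=
  ⟨r * q.c0 - q'.c0, r * q.c1 - q'.c1, r * q.c2 - q'.c2, r * q.c3 - q'.c3⟩

/-- left multiplication by a letter -/
noncomputable def stepL (l : Fin 2 × Bool) (q : Quad) : Quad :=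
  if l.1 = 0 then (if l.2 then mulA q else lin (X 0) q (mulA q))
  else (if l.2 then mulB q else lin (X 1) q (mulB q))

/-- the coefficients of a word -/
noncomputable def quad : List (Fin 2 × Bool) → Quad
  | [] => ⟨1, 0, 0, 0⟩
  | l :: w => stepL l (quad w)

/-- the value of a quadruple -/
noncomputable def Quad.ev (A B : Matrix (Fin 2) (Fin 2) ℂ) (q : Quad) : Matrix (Fin 2) (Fin 2) ℂ :=
  aeval (tpt A B) q.c0 • 1 + aeval (tpt A B) q.c1 • A + aeval (tpt A B) q.c2 • B +
    aeval (tpt A B) q.c3 • (A * B)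

theorem tpt0 (A B : Matrix (Fin 2) (Fin 2) ℂ) : tpt A B 0 = trace A := rfl
theorem tpt1 (A B : Matrix (Fin 2) (Fin 2) ℂ) : tpt A B 1 = trace B := rfl
theorem tpt2 (A B : Matrix (Fin 2) (Fin 2) ℂ) : tpt A B 2 = trace (A * B) := rfl

theorem ev_mulA (A B : Matrix (Fin 2) (Fin 2) ℂ) (hA : A.det = 1) (q : Quad) :
    (mulA q).ev A B = A * q.ev A B := by
  unfold Quad.ev mulA
  simp only [map_add, map_mul, map_neg, aeval_X, tpt0, mul_add, mul_smul_comm, mul_one,
    ← mul_assoc, sq_formula A hA, sub_mul, smul_mul_assoc, one_mul]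
  module

theorem BA_formula (A B : Matrix (Fin 2) (Fin 2) ℂ) :
    B * A = (trace (A * B) - trace A * trace B) • 1 + trace B • A + trace A • B - A * B := by
  ext i j
  fin_cases i <;> fin_cases j <;>
    simp [Matrix.mul_apply, Fin.sum_univ_two, trace_fin_two] <;> ring

theorem ev_mulB (A B : Matrix (Fin 2) (Fin 2) ℂ) (hB : B.det = 1) (q : Quad) :
    (mulB q).ev A B = B * q.ev A B := by
  have h1 : B * (A * B) = A + trace (A * B) • B - trace A • 1 := by
    rw [← mul_assoc, BA_formula A B, sub_mul, add_mul, add_mul, smul_mul_assoc, smul_mul_assoc,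
      smul_mul_assoc, one_mul, mul_assoc A B B, sq_formula B hB, mul_sub, mul_smul_comm, mul_one]
    module
  unfold Quad.ev mulB
  simp only [map_add, map_mul, map_neg, map_sub, aeval_X, tpt0, tpt1, tpt2, mul_add,
    mul_smul_comm, mul_one, h1, sq_formula B hB, BA_formula A B]
  module

theorem ev_lin (A B : Matrix (Fin 2) (Fin 2) ℂ) (r : R3) (q q' : Quad) :
    (lin r q q').ev A B = aeval (tpt A B) r • q.ev A B - q'.ev A B := by
  unfold Quad.ev lin
  simp only [map_mul, map_sub]
  module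

theorem inv_formula (A : SpecialLinearGroup (Fin 2) ℂ) :
    ((A⁻¹ : SpecialLinearGroup (Fin 2) ℂ) : Matrix (Fin 2) (Fin 2) ℂ) =
      trace (A : Matrix (Fin 2) (Fin 2) ℂ) • 1 - (A : Matrix (Fin 2) (Fin 2) ℂ) := by
  rw [Matrix.SpecialLinearGroup.coe_inv, adjugate_fin_two]
  ext i j
  fin_cases i <;> fin_cases j <;> simp [trace_fin_two]

/-- value of a list of letters -/
noncomputable def val (A B : SpecialLinearGroup (Fin 2) ℂ) (w : List (Fin 2 × Bool)) :
    SpecialLinearGroup (Fin 2) ℂ :=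
  List.prod (w.map fun x => cond x.2 (![A, B] x.1) (![A, B] x.1)⁻¹)

theorem ev_quad (A B : SpecialLinearGroup (Fin 2) ℂ) (w : List (Fin 2 × Bool)) :
    ((val A B w : SpecialLinearGroup (Fin 2) ℂ) : Matrix (Fin 2) (Fin 2) ℂ) =
      (quad w).ev A B := by
  induction w with
  | nil => simp [val, quad, Quad.ev]
  | cons l w ih =>
    have h : val A B (l :: w) = (cond l.2 (![A, B] l.1) (![A, B] l.1)⁻¹) * val A B w := by
      simp [val]
    rw [h, Matrix.SpecialLinearGroup.coe_mul, ih]
    have hA : (A : Matrix (Fin 2) (Fin 2) ℂ).det = 1 := A.2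
    have hB : (B : Matrix (Fin 2) (Fin 2) ℂ).det = 1 := B.2
    obtain ⟨i, e⟩ := l
    show _ = (stepL (i, e) (quad w)).ev A B
    unfold stepL
    fin_cases i <;> rcases e with _ | _
    · show ((A⁻¹ : SpecialLinearGroup (Fin 2) ℂ) : Matrix (Fin 2) (Fin 2) ℂ) * _ =
        (lin (X 0) (quad w) (mulA (quad w))).ev A B
      rw [ev_lin, ev_mulA _ _ hA, inv_formula, sub_mul, smul_mul_assoc, one_mul, aeval_X, tpt0]
    · show (A : Matrix (Fin 2) (Fin 2) ℂ) * _ = (mulA (quad w)).ev A B
      rw [ev_mulA _ _ hA]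
    · show ((B⁻¹ : SpecialLinearGroup (Fin 2) ℂ) : Matrix (Fin 2) (Fin 2) ℂ) * _ =
        (lin (X 1) (quad w) (mulB (quad w))).ev A B
      rw [ev_lin, ev_mulB _ _ hB, inv_formula, sub_mul, smul_mul_assoc, one_mul, aeval_X, tpt1]
    · show (B : Matrix (Fin 2) (Fin 2) ℂ) * _ = (mulB (quad w)).ev A B
      rw [ev_mulB _ _ hB]

/-- the trace polynomial of a list of letters -/
noncomputable def trp (w : List (Fin 2 × Bool)) : R3 :=
  2 * (quad w).c0 + X 0 * (quad w).c1 + X 1 * (quad w).c2 + X 2 * (quad w).c3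

theorem trace_val (A B : SpecialLinearGroup (Fin 2) ℂ) (w : List (Fin 2 × Bool)) :
    trace ((val A B w : SpecialLinearGroup (Fin 2) ℂ) : Matrix (Fin 2) (Fin 2) ℂ) =
      aeval (tpt A B) (trp w) := by
  rw [ev_quad]
  unfold Quad.ev trp
  simp only [trace_add, trace_smul, smul_eq_mul, trace_one, Fintype.card_fin, map_add, map_mul,
    map_ofNat, aeval_X, tpt0, tpt1, tpt2]
  push_cast
  ring

/-- uniqueness -/
theorem poly_unique (f g : R3) (h : ∀ A B : SpecialLinearGroup (Fin 2) ℂ,
    aeval (tpt A B) f = aeval (tpt A B) g) : f = g := by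
  have h1 : ∀ p : Fin 3 → ℂ, aeval p f = aeval p g := by
    intro p
    obtain ⟨s, hs⟩ := IsAlgClosed.exists_root
      (Polynomial.X ^ 2 - Polynomial.C (p 2) * Polynomial.X + 1 : Polynomial ℂ) (by
        have : (Polynomial.X ^ 2 - Polynomial.C (p 2) * Polynomial.X + 1 : Polynomial ℂ).degree
          = 2 := by
          compute_degree!
        rw [this]
        decide)
    rw [Polynomial.IsRoot.def] at hs
    simp only [Polynomial.eval_add, Polynomial.eval_sub, Polynomial.eval_pow, Polynomial.eval_X,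
      Polynomial.eval_mul, Polynomial.eval_C, Polynomial.eval_one] at hs
    have hs0 : s ≠ 0 := by
      rintro rfl
      norm_num at hs
    let A : SpecialLinearGroup (Fin 2) ℂ := ⟨!![p 0, -1; 1, 0], by simp [det_fin_two]⟩
    let B : SpecialLinearGroup (Fin 2) ℂ := ⟨!![0, s; -s⁻¹, p 1], by
      rw [det_fin_two]
      simp
      field_simp⟩
    have hp : tpt A B = p := by
      ext i
      fin_cases i
      · show trace (A : Matrix (Fin 2) (Fin 2) ℂ) = p 0
        rw [trace_fin_two]
        simp [A]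
      · show trace (B : Matrix (Fin 2) (Fin 2) ℂ) = p 1
        rw [trace_fin_two]
        simp [B]
      · show trace ((A : Matrix (Fin 2) (Fin 2) ℂ) * (B : Matrix (Fin 2) (Fin 2) ℂ)) = p 2
        rw [trace_fin_two]
        simp [A, B, Matrix.mul_apply, Fin.sum_univ_two]
        field_simp
        linear_combination hs
    rw [← hp]
    exact h A B
  have h2 : map (Int.castRingHom ℂ) f = map (Int.castRingHom ℂ) g := by
    apply MvPolynomial.funext
    intro p
    have := h1 p
    rw [aeval_def, aeval_def] at this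
    rw [eval_map, eval_map]
    have e : algebraMap ℤ ℂ = Int.castRingHom ℂ := RingHom.ext_int _ _
    rw [e] at this
    exact this
  exact map_injective _ Int.cast_injective h2

/-! ### degrees -/

/-- all entries have degree at most `d` in each variable -/
def Quad.DegLE (q : Quad) (d : ℕ) : Prop :=
  q.c0.totalDegree ≤ d ∧ q.c1.totalDegree ≤ d ∧ q.c2.totalDegree ≤ d ∧ q.c3.totalDegree ≤ d

theorem deg_add {f g : R3} {d : ℕ} (hf : f.totalDegree ≤ d) (hg : g.totalDegree ≤ d) :
    (f + g).totalDegree ≤ d := (totalDegree_add _ _).trans (max_le hf hg)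

theorem deg_sub {f g : R3} {d : ℕ} (hf : f.totalDegree ≤ d) (hg : g.totalDegree ≤ d) :
    (f - g).totalDegree ≤ d := (totalDegree_sub _ _).trans (max_le hf hg)

theorem deg_X (i : Fin 3) : (X i : R3).totalDegree ≤ 1 := (totalDegree_X i).le

theorem deg_Xmul {f : R3} {d : ℕ} (i : Fin 3) (hf : f.totalDegree ≤ d) :
    (X i * f).totalDegree ≤ d + 1 := by
  refine (totalDegree_mul _ _).trans ?_
  have := deg_X i
  omega

theorem deg_XX : (X 2 - X 0 * X 1 : R3).totalDegree ≤ 2 := by
  refine deg_sub ((deg_X 2).trans (by norm_num)) ?_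
  exact deg_Xmul 0 (deg_X 1)

theorem deg_mulA {q : Quad} {d : ℕ} (h : q.DegLE d) : (mulA q).DegLE (d + 1) := by
  obtain ⟨h0, h1, h2, h3⟩ := h
  refine ⟨?_, ?_, ?_, ?_⟩
  · show (-q.c1).totalDegree ≤ _
    rw [totalDegree_neg]; omega
  · exact deg_add (by omega) (deg_Xmul 0 h1)
  · show (-q.c3).totalDegree ≤ _
    rw [totalDegree_neg]; omega
  · exact deg_add (by omega) (deg_Xmul 0 h3)

theorem deg_mulB {q : Quad} {d : ℕ} (h : q.DegLE d) : (mulB q).DegLE (d + 2) := by
  obtain ⟨h0, h1, h2, h3⟩ := h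
  refine ⟨?_, ?_, ?_, ?_⟩
  · refine deg_sub (deg_sub ?_ (by omega)) ((deg_Xmul 0 h3).trans (by omega))
    refine (totalDegree_mul _ _).trans ?_
    have := deg_XX
    omega
  · exact deg_add ((deg_Xmul 1 h1).trans (by omega)) (by omega)
  · exact deg_add (deg_add (deg_add (by omega) ((deg_Xmul 0 h1).trans (by omega)))
      ((deg_Xmul 1 h2).trans (by omega))) ((deg_Xmul 2 h3).trans (by omega))
  · show (-q.c1).totalDegree ≤ _
    rw [totalDegree_neg]; omega

theorem deg_lin {q q' : Quad} {d : ℕ} (i : Fin 3) (h : q.DegLE d) (h' : q'.DegLE (d + 2)) :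
    (lin (X i) q q').DegLE (d + 2) := by
  obtain ⟨h0, h1, h2, h3⟩ := h
  obtain ⟨h0', h1', h2', h3'⟩ := h'
  refine ⟨?_, ?_, ?_, ?_⟩
  · exact deg_sub ((deg_Xmul i h0).trans (by omega)) h0'
  · exact deg_sub ((deg_Xmul i h1).trans (by omega)) h1'
  · exact deg_sub ((deg_Xmul i h2).trans (by omega)) h2'
  · exact deg_sub ((deg_Xmul i h3).trans (by omega)) h3'

theorem Quad.DegLE.mono {q : Quad} {d d' : ℕ} (h : q.DegLE d) (hd : d ≤ d') : q.DegLE d' :=
  ⟨h.1.trans hd, h.2.1.trans hd, h.2.2.1.trans hd, h.2.2.2.trans hd⟩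

theorem deg_quad (w : List (Fin 2 × Bool)) : (quad w).DegLE (2 * w.length) := by
  induction w with
  | nil =>
    refine ⟨?_, ?_, ?_, ?_⟩ <;> simp [quad]
  | cons l w ih =>
    show (stepL l (quad w)).DegLE (2 * (w.length + 1))
    have e : 2 * (w.length + 1) = 2 * w.length + 2 := by ring
    rw [e]
    unfold stepL
    split_ifs
    · exact (deg_mulA ih).mono (by omega)
    · exact deg_lin 0 ih ((deg_mulA ih).mono (by omega))
    · exact deg_mulB ih
    · exact deg_lin 1 ih (deg_mulB ih)

theorem deg_trp (w : List (Fin 2 × Bool)) : (trp w).totalDegree ≤ 2 * w.length + 1 := by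
  obtain ⟨h0, h1, h2, h3⟩ := deg_quad w
  unfold trp
  refine deg_add (deg_add (deg_add ?_ (deg_Xmul 0 h1)) (deg_Xmul 1 h2)) (deg_Xmul 2 h3)
  rw [two_mul]
  exact deg_add (by omega) (by omega)

theorem card_support_le (f : R3) (d : ℕ) (h : f.totalDegree ≤ d) :
    f.support.card ≤ (d + 1) ^ 3 := by
  classical
  have := Finset.card_le_card_of_injOn (s := f.support)
    (t := Finset.range (d + 1) ×ˢ (Finset.range (d + 1) ×ˢ Finset.range (d + 1)))
    (fun m => (m 0, m 1, m 2)) ?_ ?_
  · refine this.trans (le_of_eq ?_)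
    simp
    ring
  · intro m hm
    have h1 : (m.sum fun _ e => e) ≤ d := (le_totalDegree hm).trans h
    have h2 : ∀ i, m i ≤ d := by
      intro i
      refine le_trans ?_ h1
      rw [Finsupp.sum_fintype _ _ (fun _ => rfl)]
      exact Finset.single_le_sum (f := fun j => m j) (fun _ _ => Nat.zero_le _)
        (Finset.mem_univ i)
    simp only [Finset.coe_product, Set.mem_prod, Finset.mem_coe, Finset.mem_range]
    have := h2 0
    have := h2 1
    have := h2 2
    omega
  · intro m _ m' _ he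
    simp only [Prod.mk.injEq] at he
    ext i
    fin_cases i
    · exact he.1
    · exact he.2.1
    · exact he.2.2

/-! ### the word `a^(P+1) b^(Q+1) (ab)^(R+1)` -/

/-- the word -/
def wd (P Q R : ℕ) : List (Fin 2 × Bool) :=
  List.replicate (P + 1) (0, true) ++ List.replicate (Q + 1) (1, true) ++
    (List.replicate (R + 1) [((0 : Fin 2), true), ((1 : Fin 2), true)]).flatten

theorem val_wd (A B : SpecialLinearGroup (Fin 2) ℂ) (P Q R : ℕ) :
    val A B (wd P Q R) = A ^ (P + 1) * B ^ (Q + 1) * (A * B) ^ (R + 1) := by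
  have h : ∀ n, (List.map (fun x : Fin 2 × Bool => cond x.2 (![A, B] x.1) (![A, B] x.1)⁻¹)
      (List.replicate n [((0 : Fin 2), true), ((1 : Fin 2), true)]).flatten).prod =
      (A * B) ^ n := by
    intro n
    induction n with
    | zero => simp
    | succ n ih =>
      rw [List.replicate_succ, List.flatten_cons, List.map_append, List.prod_append, ih,
        pow_succ']
      simp
  unfold val wd
  rw [List.map_append, List.map_append, List.prod_append, List.prod_append, h]
  simp

theorem length_wd (P Q R : ℕ) : (wd P Q R).length = P + Q + 2 * R + 4 := by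
  unfold wd
  simp
  ring

theorem cyc_of_pos (L : List (Fin 2 × Bool)) (h : ∀ l ∈ L, l.2 = true) :
    FreeGroup.IsCyclicallyReduced L := by
  constructor
  · unfold FreeGroup.IsReduced
    apply List.Pairwise.isChain
    rw [List.pairwise_iff_forall_sublist]
    intro a b hab _
    have ha : a ∈ L := hab.subset (by simp)
    have hb : b ∈ L := hab.subset (by simp)
    rw [h a ha, h b hb]
  · intro a ha b hb _
    rw [h a (List.mem_of_getLast? ha), h b (List.mem_of_head? hb)]

theorem cyc_wd (P Q R : ℕ) : FreeGroup.IsCyclicallyReduced (wd P Q R) := by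
  apply cyc_of_pos
  intro l hl
  unfold wd at hl
  simp only [List.mem_append, List.mem_replicate, List.mem_flatten] at hl
  rcases hl with (⟨_, rfl⟩ | ⟨_, rfl⟩) | ⟨s, ⟨_, rfl⟩, hl⟩
  · rfl
  · rfl
  · simp at hl
    rcases hl with rfl | rfl <;> rfl

theorem trp_wd (P Q R : ℕ) : trp (wd P Q R) = FF P Q R := by
  apply poly_unique
  intro A B
  rw [← trace_val, val_wd, ← trace_word _ _ A.2 B.2]
  simp only [Matrix.SpecialLinearGroup.coe_mul, Matrix.SpecialLinearGroup.coe_pow]

end Pool.Agent.X177.TP
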